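import Pool.Agent.Mg.Feba2ed.Gddec95
import Pool.Agent.Mg.Feba2ed.Ge6c020

namespace Pool.Agent.MP_eba2ed_ag.Old.CurvesCharP

open CategoryTheory AlgebraicGeometry Pool.Agent.MP_eba2ed_ag

/-- For every prime `p` there is a Hilbert polynomial `d t + 1 - g` with `d ≥ 1` such that the
Hilbert scheme over the integers of closed subschemes of projective three-space with that Hilbert
polynomial exists and has an irreducible component whose image in `Spec ℤ` is the single point
`(p)`. -/
theorem result : ∀ p : ℕ, p.Prime → ∃ (d : ℕ) (g : ℤ), 1 ≤ d ∧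
    (∃ H : Scheme.{0}, IsHilbertScheme d g H) ∧
    ∀ H : Scheme.{0}, IsHilbertScheme d g H → ∃ Z ∈ irreducibleComponents H,
      (specZIsTerminal.from H) '' Z = {x | x.asIdeal = Ideal.span {(p : ℤ)}} := by
  intro p hp
  obtain ⟨d, g, h1, h2⟩ := exists_component p hp
  exact ⟨d, g, h1, exists_hilbertScheme d g, h2⟩

end Pool.Agent.MP_eba2ed_ag.Old.CurvesCharP
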